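import Mathlib

set_option autoImplicit false

/-!
# An explicit Gehring exponent for reverse Hölder weights

For `w ∈ RH_p` on `ℝ^d` and `0 < ε ≤ c [w]_{RH_p}^{-p}`, with the explicit constant
`c = (p / 2) ((p - 1) / (2 ^ (d + 1) p)) ^ p`, one has
`⟨w ^ (p + ε)⟩_Q ≤ 2 ⟨w⟩_Q ^ ε ⟨w ^ p⟩_Q ≤ 2 [w]_{RH_p} ^ (p + ε) ⟨w⟩_Q ^ (p + ε)` for all cubes `Q`.

Proof: let `M_N` be the maximum of the averages of `w` over the dyadic subcubes of `Q` of level at
most `N` containing the point.  Where `M_{k+1} > M_k` the value `M_{k+1}` is the average of `w` over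
a dyadic cube of level `k + 1` and is at most `2 ^ d M_k`; the reverse Hölder inequality on that
cube and an elementary inequality give, after telescoping,
`∫ M_N^ε w^p ≤ ⟨w⟩_Q^ε ∫ w^p + [w]^p 2^{dp} (ε / (p + ε)) ∫ M_N^{p+ε}`, and a similar telescoping
gives `∫ M_N^{p+ε} ≤ p' ∫ M_N^{p+ε-1} w`, hence `∫ M_N^{p+ε} ≤ (2 p')^p ∫ M_N^ε w^p`.  For small `ε`
the last term of the first inequality is absorbed, and Fatou's lemma and Lebesgue's differentiation
theorem finish the proof.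
-/

open MeasureTheory Filter Topology Set

namespace Pool.Agent.Results.MP_edcda5_an.ExplicitGehringExponent

/-- elementary inequality 1 -/
lemma elem1 {p ε D s t : ℝ} (hp : 1 < p) (hε : 0 < ε) (hD : 0 ≤ D) (hs : 0 ≤ s) (hst : s ≤ t)
    (htD : t ≤ D * s) :
    t ^ p * (t ^ ε - s ^ ε) ≤ D ^ p * (ε / (p + ε)) * (t ^ (p + ε) - s ^ (p + ε)) := by
  rcases hs.eq_or_lt with h0 | hs0
  · have : t = 0 := le_antisymm (by rw [← h0] at htD; simpa using htD) (hs.trans hst)
    rw [← h0, this]; simp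
  have ht0 : 0 < t := hs0.trans_le hst
  have hpe : 0 < p + ε := by linarith
  have h1 : s ^ p * (t ^ ε - s ^ ε) ≤ (ε / (p + ε)) * (t ^ (p + ε) - s ^ (p + ε)) := by
    have hb := one_add_mul_self_le_rpow_one_add (s := (t / s) ^ ε - 1) (p := (p + ε) / ε)
      (by have : 0 ≤ (t / s) ^ ε := by positivity
          linarith) (by rw [le_div_iff₀ hε]; linarith)
    have e1 : (1 + ((t / s) ^ ε - 1)) ^ ((p + ε) / ε) = (t / s) ^ (p + ε) := by
      rw [show (1 + ((t / s) ^ ε - 1)) = (t / s) ^ ε by ring, ← Real.rpow_mul (by positivity)]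
      congr 1; field_simp
    rw [e1] at hb
    have e2 : (t / s) ^ ε = t ^ ε / s ^ ε := Real.div_rpow ht0.le hs0.le _
    have e3 : (t / s) ^ (p + ε) = t ^ (p + ε) / s ^ (p + ε) := Real.div_rpow ht0.le hs0.le _
    rw [e2, e3] at hb
    have e4 : s ^ (p + ε) = s ^ p * s ^ ε := Real.rpow_add hs0 _ _
    have hsp : 0 < s ^ p := by positivity
    have hse : 0 < s ^ ε := by positivity
    have hse' : 0 < s ^ (p + ε) := by positivity
    have h2 : (p + ε) / ε * (t ^ ε / s ^ ε - 1) ≤ t ^ (p + ε) / s ^ (p + ε) - 1 := by linarith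
    have h3 : s ^ (p + ε) * ((p + ε) / ε * (t ^ ε / s ^ ε - 1)) ≤
        s ^ (p + ε) * (t ^ (p + ε) / s ^ (p + ε) - 1) := mul_le_mul_of_nonneg_left h2 hse'.le
    have e5 : s ^ (p + ε) * (t ^ (p + ε) / s ^ (p + ε) - 1) = t ^ (p + ε) - s ^ (p + ε) := by
      field_simp
    have e6 : s ^ (p + ε) * ((p + ε) / ε * (t ^ ε / s ^ ε - 1)) =
        (p + ε) / ε * (s ^ p * (t ^ ε - s ^ ε)) := by
      rw [e4]; field_simp
    rw [e5, e6] at h3
    calc s ^ p * (t ^ ε - s ^ ε) = (ε / (p + ε)) * ((p + ε) / ε * (s ^ p * (t ^ ε - s ^ ε))) := by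
          field_simp
      _ ≤ _ := mul_le_mul_of_nonneg_left h3 (by positivity)
  have hd : 0 ≤ t ^ ε - s ^ ε := sub_nonneg.2 (Real.rpow_le_rpow hs hst hε.le)
  calc t ^ p * (t ^ ε - s ^ ε) ≤ (D * s) ^ p * (t ^ ε - s ^ ε) :=
        mul_le_mul_of_nonneg_right (Real.rpow_le_rpow ht0.le htD (by linarith)) hd
    _ = D ^ p * (s ^ p * (t ^ ε - s ^ ε)) := by rw [Real.mul_rpow hD hs]; ring
    _ ≤ D ^ p * ((ε / (p + ε)) * (t ^ (p + ε) - s ^ (p + ε))) :=
        mul_le_mul_of_nonneg_left h1 (by positivity)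
    _ = _ := by ring

/-- elementary inequality 2 -/
lemma elem2 {p r s t : ℝ} (hp : 1 < p) (hr : p ≤ r) (hs : 0 ≤ s) (hst : s ≤ t) :
    t ^ r - s ^ r ≤ (p / (p - 1)) * (t * (t ^ (r - 1) - s ^ (r - 1))) := by
  have hp1 : 0 < p - 1 := by linarith
  have hr1 : 0 < r - 1 := by linarith
  rcases (hs.trans hst).eq_or_lt with h0 | ht0
  · have : s = 0 := le_antisymm (by rw [h0]; exact hst) hs
    rw [← h0, this]; simp
  have hd : 0 ≤ t ^ (r - 1) - s ^ (r - 1) := sub_nonneg.2 (Real.rpow_le_rpow hs hst hr1.le)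
  have hb := one_add_mul_self_le_rpow_one_add (s := (s / t) ^ (r - 1) - 1) (p := r / (r - 1))
      (by have : 0 ≤ (s / t) ^ (r - 1) := by positivity
          linarith) (by rw [le_div_iff₀ hr1]; linarith)
  have e1 : (1 + ((s / t) ^ (r - 1) - 1)) ^ (r / (r - 1)) = (s / t) ^ r := by
    rw [show (1 + ((s / t) ^ (r - 1) - 1)) = (s / t) ^ (r - 1) by ring,
      ← Real.rpow_mul (by positivity)]
    congr 1; field_simp
  rw [e1, Real.div_rpow hs ht0.le, Real.div_rpow hs ht0.le] at hb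
  have htr : 0 < t ^ r := by positivity
  have htr1 : 0 < t ^ (r - 1) := by positivity
  have e4 : t ^ r = t * t ^ (r - 1) := by
    rw [← Real.rpow_one_add' ht0.le (by linarith)]; congr 1; ring
  have h3 : t ^ r * (1 + r / (r - 1) * (s ^ (r - 1) / t ^ (r - 1) - 1)) ≤ t ^ r * (s ^ r / t ^ r) :=
    mul_le_mul_of_nonneg_left hb htr.le
  have e5 : t ^ r * (s ^ r / t ^ r) = s ^ r := by field_simp
  have e6 : t ^ r * (1 + r / (r - 1) * (s ^ (r - 1) / t ^ (r - 1) - 1)) =
      t ^ r - r / (r - 1) * (t * (t ^ (r - 1) - s ^ (r - 1))) := by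
    rw [e4]; field_simp; ring
  rw [e5, e6] at h3
  have h4 : r / (r - 1) ≤ p / (p - 1) := by
    rw [div_le_div_iff₀ hr1 hp1]; nlinarith
  have h5 : r / (r - 1) * (t * (t ^ (r - 1) - s ^ (r - 1))) ≤
      p / (p - 1) * (t * (t ^ (r - 1) - s ^ (r - 1))) :=
    mul_le_mul_of_nonneg_right h4 (mul_nonneg ht0.le hd)
  linarith

/-- elementary inequality 3 (a crude form of Young's inequality) -/
lemma elem3 {p ε η f m : ℝ} (hp : 1 < p) (hε : 0 < ε) (hη : 0 < η) (hf : 0 ≤ f) (hm : 0 ≤ m) :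
    f * m ^ (p + ε - 1) ≤ η * m ^ (p + ε) + (1 / η) ^ (p - 1) * (m ^ ε * f ^ p) := by
  have hpe : 0 < p + ε - 1 := by linarith
  rcases hm.eq_or_lt with h0 | hm0
  · rw [← h0, Real.zero_rpow hpe.ne', Real.zero_rpow (by linarith), Real.zero_rpow hε.ne']; simp
  rcases le_total f (η * m) with h | h
  · have e : m * m ^ (p + ε - 1) = m ^ (p + ε) := by
      rw [← Real.rpow_one_add' hm (by linarith)]; congr 1; ring
    calc f * m ^ (p + ε - 1) ≤ (η * m) * m ^ (p + ε - 1) :=
          mul_le_mul_of_nonneg_right h (by positivity)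
      _ = η * m ^ (p + ε) := by rw [mul_assoc, e]
      _ ≤ _ := le_add_of_nonneg_right (by positivity)
  · have hf0 : 0 < f := lt_of_lt_of_le (by positivity) h
    have h1 : m ≤ (1 / η) * f := by
      rw [one_div, ← div_eq_inv_mul, le_div_iff₀ hη]; linarith
    have e : m ^ (p + ε - 1) = m ^ (p - 1) * m ^ ε := by
      rw [← Real.rpow_add hm0]; congr 1; ring
    have e2 : f * f ^ (p - 1) = f ^ p := by
      rw [← Real.rpow_one_add' hf (by linarith)]; congr 1; ring
    calc f * m ^ (p + ε - 1) = f * m ^ (p - 1) * m ^ ε := by rw [e]; ring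
      _ ≤ f * ((1 / η) * f) ^ (p - 1) * m ^ ε := by
          have := Real.rpow_le_rpow hm h1 (by linarith : 0 ≤ p - 1)
          gcongr
      _ = (1 / η) ^ (p - 1) * (m ^ ε * (f * f ^ (p - 1))) := by
          rw [Real.mul_rpow (by positivity) hf]; ring
      _ = (1 / η) ^ (p - 1) * (m ^ ε * f ^ p) := by rw [e2]
      _ ≤ _ := le_add_of_nonneg_left (by positivity)

variable {d : ℕ}

/-- the index of the dyadic subcube of level `k` -/
noncomputable def idx (a : Fin d → ℝ) (l : ℝ) (k : ℕ) (x : Fin d → ℝ) : Fin d → ℤ :=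
  fun i => ⌊2 ^ k * ((x i - a i) / l)⌋

/-- dyadic cell -/
def cell (a : Fin d → ℝ) (l : ℝ) (k : ℕ) (c : Fin d → ℤ) : Set (Fin d → ℝ) :=
  idx a l k ⁻¹' {c}

/-- corner of a dyadic cell -/
noncomputable def corner (a : Fin d → ℝ) (l : ℝ) (k : ℕ) (c : Fin d → ℤ) : Fin d → ℝ :=
  fun i => a i + l / 2 ^ k * c i

lemma mem_cell {a : Fin d → ℝ} {l : ℝ} (hl : 0 < l) {k : ℕ} {c : Fin d → ℤ} {x : Fin d → ℝ} :
    x ∈ cell a l k c ↔ ∀ i, corner a l k c i ≤ x i ∧ x i < corner a l k c i + l / 2 ^ k := by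
  simp only [cell, mem_preimage, mem_singleton_iff, funext_iff, idx, Int.floor_eq_iff, corner]
  refine forall_congr' fun i => ?_
  have h2 : (0:ℝ) < 2 ^ k := by positivity
  have e : 2 ^ k * ((x i - a i) / l) = (x i - a i) / (l / 2 ^ k) := by field_simp
  have hlk : 0 < l / 2 ^ k := by positivity
  rw [e, le_div_iff₀ hlk, div_lt_iff₀ hlk]
  constructor
  · rintro ⟨h1, h3⟩; constructor <;> nlinarith
  · rintro ⟨h1, h3⟩; constructor <;> nlinarith

lemma cell_eq {a : Fin d → ℝ} {l : ℝ} (hl : 0 < l) (k : ℕ) (c : Fin d → ℤ) :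
    cell a l k c = Set.pi univ (fun i => Ico (corner a l k c i) (corner a l k c i + l / 2 ^ k)) := by
  ext x
  rw [mem_cell hl]; simp

lemma cell_ae {a : Fin d → ℝ} {l : ℝ} (hl : 0 < l) (k : ℕ) (c : Fin d → ℤ) :
    cell a l k c =ᵐ[volume] Icc (corner a l k c) (fun i => corner a l k c i + l / 2 ^ k) := by
  rw [cell_eq hl]
  exact Measure.univ_pi_Ico_ae_eq_Icc

lemma vol_cell {a : Fin d → ℝ} {l : ℝ} (hl : 0 < l) (k : ℕ) (c : Fin d → ℤ) :
    volume (cell a l k c) = ENNReal.ofReal ((l / 2 ^ k) ^ d) := by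
  rw [cell_eq hl, Real.volume_pi_Ico]
  simp only [add_sub_cancel_left, Finset.prod_const, Finset.card_univ, Fintype.card_fin]
  rw [ENNReal.ofReal_pow (by positivity)]

lemma volreal_cell {a : Fin d → ℝ} {l : ℝ} (hl : 0 < l) (k : ℕ) (c : Fin d → ℤ) :
    volume.real (cell a l k c) = (l / 2 ^ k) ^ d := by
  rw [Measure.real, vol_cell hl, ENNReal.toReal_ofReal (by positivity)]

lemma measurable_idx (a : Fin d → ℝ) (l : ℝ) (k : ℕ) : Measurable (idx a l k) := by
  refine measurable_pi_lambda _ fun i => ?_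
  exact Int.measurable_floor.comp (((measurable_pi_apply i).sub_const _).div_const _ |>.const_mul _)

lemma measurableSet_cell (a : Fin d → ℝ) (l : ℝ) (k : ℕ) (c : Fin d → ℤ) :
    MeasurableSet (cell a l k c) := measurable_idx a l k (measurableSet_singleton c)

lemma idx_succ (a : Fin d → ℝ) (l : ℝ) (k : ℕ) {x y : Fin d → ℝ}
    (h : idx a l (k + 1) x = idx a l (k + 1) y) : idx a l k x = idx a l k y := by
  funext i
  have hi := congrFun h i
  simp only [idx] at hi ⊢
  have key : ∀ u : ℝ, ⌊2 ^ k * u⌋ = ⌊2 ^ (k + 1) * u⌋ / 2 := by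
    intro u
    have e : (2:ℝ) ^ (k + 1) * u = (2 ^ k * u) * 2 := by rw [pow_succ]; ring
    rw [e]
    generalize (2:ℝ) ^ k * u = v
    symm
    rw [eq_comm, Int.floor_eq_iff]
    have h1 := Int.floor_le (v * 2)
    have h2 := Int.lt_floor_add_one (v * 2)
    have h3 : 2 * (⌊v * 2⌋ / 2) ≤ ⌊v * 2⌋ := by omega
    have h4 : ⌊v * 2⌋ ≤ 2 * (⌊v * 2⌋ / 2) + 1 := by omega
    have h3' : (2:ℝ) * ((⌊v * 2⌋ / 2 : ℤ) : ℝ) ≤ (⌊v * 2⌋ : ℝ) := by exact_mod_cast h3
    have h4' : (⌊v * 2⌋ : ℝ) ≤ (2:ℝ) * ((⌊v * 2⌋ / 2 : ℤ) : ℝ) + 1 := by exact_mod_cast h4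
    constructor <;> linarith
  rw [key, key, hi]

lemma idx_mono (a : Fin d → ℝ) (l : ℝ) {j k : ℕ} (hjk : j ≤ k) {x y : Fin d → ℝ}
    (h : idx a l k x = idx a l k y) : idx a l j x = idx a l j y := by
  induction k, hjk using Nat.le_induction with
  | base => exact h
  | succ n _ ih => exact ih (idx_succ a l n h)

lemma fiber_le {ι : Type*} [Countable ι] {F G : (Fin d → ℝ) → ℝ} {S : Set (Fin d → ℝ)}
    (hS : MeasurableSet S)
    (hF : IntegrableOn F S) (hG : IntegrableOn G S) (φ : (Fin d → ℝ) → ι)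
    (hφ : ∀ c, MeasurableSet (φ ⁻¹' {c}))
    (h : ∀ c, ∫ x in S ∩ φ ⁻¹' {c}, F x ≤ ∫ x in S ∩ φ ⁻¹' {c}, G x) :
    ∫ x in S, F x ≤ ∫ x in S, G x := by
  have hU : ⋃ c, S ∩ φ ⁻¹' {c} = S := by
    rw [← inter_iUnion]
    have : ⋃ c, φ ⁻¹' {c} = univ := by
      ext x; simp
    rw [this, inter_univ]
  have hd : Pairwise (Function.onFun Disjoint fun c => S ∩ φ ⁻¹' {c}) := by
    intro c c' hcc
    rw [Function.onFun, Set.disjoint_left]
    rintro x ⟨_, hx⟩ ⟨_, hx'⟩
    exact hcc (hx.symm.trans hx')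
  have h1 := hasSum_integral_iUnion (μ := volume) (f := F) (fun c => hS.inter (hφ c)) hd (by rw [hU]; exact hF)
  have h2 := hasSum_integral_iUnion (μ := volume) (f := G) (fun c => hS.inter (hφ c)) hd (by rw [hU]; exact hG)
  rw [hU] at h1 h2
  exact hasSum_le h h1 h2

/-- average of `w` over the dyadic cell containing `x` -/
noncomputable def A (a : Fin d → ℝ) (l : ℝ) (w : (Fin d → ℝ) → ℝ) (k : ℕ) (x : Fin d → ℝ) : ℝ :=
  ((l / 2 ^ k) ^ d)⁻¹ * ∫ y in cell a l k (idx a l k x), w y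

/-- the dyadic maximal function up to level `N` -/
noncomputable def M (a : Fin d → ℝ) (l : ℝ) (w : (Fin d → ℝ) → ℝ) : ℕ → (Fin d → ℝ) → ℝ
  | 0, x => A a l w 0 x
  | N + 1, x => max (M a l w N x) (A a l w (N + 1) x)

variable {a : Fin d → ℝ} {l : ℝ} {w : (Fin d → ℝ) → ℝ}

lemma A_congr {k : ℕ} {x y : Fin d → ℝ} (h : idx a l k x = idx a l k y) :
    A a l w k x = A a l w k y := by rw [A, A, h]

lemma M_congr {N : ℕ} {x y : Fin d → ℝ} (h : idx a l N x = idx a l N y) :
    M a l w N x = M a l w N y := by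
  induction N with
  | zero => exact A_congr h
  | succ n ih => rw [M, M, ih (idx_succ a l n h), A_congr h]

lemma A_nonneg (hl : 0 < l) (hw : ∀ x, 0 ≤ w x) (k : ℕ) (x : Fin d → ℝ) : 0 ≤ A a l w k x := by
  unfold A
  have := setIntegral_nonneg (measurableSet_cell a l k (idx a l k x)) (μ := volume) (fun y _ => hw y)
  positivity

lemma M_nonneg (hl : 0 < l) (hw : ∀ x, 0 ≤ w x) (N : ℕ) (x : Fin d → ℝ) : 0 ≤ M a l w N x := by
  induction N with
  | zero => exact A_nonneg hl hw 0 x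
  | succ n ih => exact ih.trans (le_max_left _ _)

lemma A_le_M (N : ℕ) (x : Fin d → ℝ) : A a l w N x ≤ M a l w N x := by
  cases N with
  | zero => exact le_rfl
  | succ n => exact le_max_right _ _

lemma cell_sub (k : ℕ) (x : Fin d → ℝ) :
    cell a l (k + 1) (idx a l (k + 1) x) ⊆ cell a l k (idx a l k x) :=
  fun _ hy => idx_succ a l k hy

lemma integrableOn_cell (hl : 0 < l) (hwi : LocallyIntegrable w volume) (k : ℕ) (c : Fin d → ℤ) :
    IntegrableOn w (cell a l k c) := by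
  rw [integrableOn_congr_set_ae (cell_ae hl k c)]
  exact hwi.integrableOn_isCompact isCompact_Icc

lemma A_succ_le (hl : 0 < l) (hw : ∀ x, 0 ≤ w x) (hwi : LocallyIntegrable w volume) (k : ℕ)
    (x : Fin d → ℝ) : A a l w (k + 1) x ≤ 2 ^ d * A a l w k x := by
  unfold A
  have h1 : ∫ y in cell a l (k + 1) (idx a l (k + 1) x), w y ≤ ∫ y in cell a l k (idx a l k x), w y :=
    setIntegral_mono_set (integrableOn_cell hl hwi _ _) (ae_of_all _ fun y => hw y)
      (cell_sub k x).eventuallyLE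
  have e : ((l / 2 ^ (k + 1)) ^ d)⁻¹ = 2 ^ d * ((l / 2 ^ k) ^ d)⁻¹ := by
    rw [pow_succ, ← div_div, div_pow (l / 2 ^ k), inv_div]; field_simp
  rw [e, mul_assoc]
  gcongr

lemma M_succ_le (hl : 0 < l) (hw : ∀ x, 0 ≤ w x) (hwi : LocallyIntegrable w volume) (N : ℕ)
    (x : Fin d → ℝ) : M a l w (N + 1) x ≤ 2 ^ d * M a l w N x := by
  rw [M]
  have h1 : (1:ℝ) ≤ 2 ^ d := one_le_pow₀ (by norm_num)
  refine max_le (le_mul_of_one_le_left (M_nonneg hl hw N x) h1) ?_
  refine (A_succ_le hl hw hwi N x).trans ?_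
  have := A_le_M (a := a) (l := l) (w := w) N x
  gcongr

lemma measurable_A (a : Fin d → ℝ) (l : ℝ) (w : (Fin d → ℝ) → ℝ) (k : ℕ) : Measurable (A a l w k) := by
  have : A a l w k = (fun c => ((l / 2 ^ k) ^ d)⁻¹ * ∫ y in cell a l k c, w y) ∘ idx a l k := rfl
  rw [this]
  exact (measurable_of_countable _).comp (measurable_idx a l k)

lemma measurable_M (a : Fin d → ℝ) (l : ℝ) (w : (Fin d → ℝ) → ℝ) (N : ℕ) : Measurable (M a l w N) := by
  induction N with
  | zero => exact measurable_A a l w 0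
  | succ n ih =>
    have : M a l w (n + 1) = fun x => max (M a l w n x) (A a l w (n + 1) x) := rfl
    rw [this]
    exact ih.max (measurable_A a l w (n + 1))

lemma M_zero_eq {x : Fin d → ℝ} (hx : x ∈ cell a l 0 0) :
    M a l w 0 x = ((l ^ d)⁻¹ * ∫ y in cell a l 0 0, w y) := by
  have h0 : idx a l 0 x = 0 := hx
  rw [M, A, h0]; simp

lemma M_le (hl : 0 < l) (hw : ∀ x, 0 ≤ w x) (hwi : LocallyIntegrable w volume) (N : ℕ)
    {x : Fin d → ℝ} (hx : x ∈ cell a l 0 0) :
    M a l w N x ≤ (2 ^ d) ^ N * ((l ^ d)⁻¹ * ∫ y in cell a l 0 0, w y) := by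
  induction N with
  | zero => rw [M_zero_eq hx]; simp
  | succ n ih =>
    refine (M_succ_le hl hw hwi n x).trans ?_
    rw [pow_succ' (2 ^ d : ℝ), mul_assoc]
    gcongr

lemma integrable_Mpow (hl : 0 < l) (hw : ∀ x, 0 ≤ w x) (hwi : LocallyIntegrable w volume) (N : ℕ)
    {α : ℝ} (hα : 0 ≤ α) {F : (Fin d → ℝ) → ℝ} (hF : IntegrableOn F (cell a l 0 0)) :
    IntegrableOn (fun x => M a l w N x ^ α * F x) (cell a l 0 0) := by
  refine Integrable.bdd_mul (c := ((2 ^ d) ^ N * ((l ^ d)⁻¹ * ∫ y in cell a l 0 0, w y)) ^ α) hF ?_ ?_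
  · exact ((measurable_M a l w N).pow_const α).aestronglyMeasurable
  · refine (ae_restrict_iff' (measurableSet_cell a l 0 0)).2 (ae_of_all _ fun x hx => ?_)
    have h0 := M_nonneg (a := a) hl hw N x
    rw [Real.norm_of_nonneg (by positivity)]
    exact Real.rpow_le_rpow h0 (M_le hl hw hwi N hx) hα

lemma integrable_Mpow' (hl : 0 < l) (hw : ∀ x, 0 ≤ w x) (hwi : LocallyIntegrable w volume) (N : ℕ)
    {α : ℝ} (hα : 0 ≤ α) : IntegrableOn (fun x => M a l w N x ^ α) (cell a l 0 0) := by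
  have h1 : IntegrableOn (fun _ : Fin d → ℝ => (1:ℝ)) (cell a l 0 0) :=
    integrableOn_const (by rw [vol_cell hl]; exact ENNReal.ofReal_ne_top) 
  simpa using integrable_Mpow (a := a) hl hw hwi N hα h1

/-- the fibre over `c` of level `N+1` inside `Q₀` is empty or a cell with a point -/
lemma fiber_cases (a : Fin d → ℝ) (l : ℝ) (k : ℕ) (c : Fin d → ℤ) :
    cell a l 0 0 ∩ idx a l k ⁻¹' {c} = ∅ ∨
      ∃ x ∈ cell a l 0 0, idx a l k x = c ∧ cell a l 0 0 ∩ idx a l k ⁻¹' {c} = cell a l k c := by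
  rcases Set.eq_empty_or_nonempty (cell a l 0 0 ∩ idx a l k ⁻¹' {c}) with h | ⟨x, hx, hxc⟩
  · exact Or.inl h
  · refine Or.inr ⟨x, hx, hxc, ?_⟩
    apply Set.inter_eq_right.2
    intro y hy
    have h1 : idx a l k y = idx a l k x := by
      rw [show idx a l k x = c from hxc]; exact hy
    exact (idx_mono a l (Nat.zero_le k) h1).trans hx

/-- one step of the telescoping, first inequality -/
lemma step1 (hl : 0 < l) (hw : ∀ x, 0 ≤ w x) (hwi : LocallyIntegrable w volume)
    {p ε K : ℝ} (hp : 1 < p) (hε : 0 < ε) (hK : 0 ≤ K)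
    (hint : ∀ k c, IntegrableOn (fun x => w x ^ p) (cell a l k c))
    (hRH : ∀ k c, ∫ x in cell a l k c, w x ^ p ≤
      K ^ p * (((l / 2 ^ k) ^ d)⁻¹ * ∫ y in cell a l k c, w y) ^ p * (l / 2 ^ k) ^ d) (N : ℕ) :
    ∫ x in cell a l 0 0, (M a l w (N + 1) x ^ ε * w x ^ p - M a l w N x ^ ε * w x ^ p) ≤
      ∫ x in cell a l 0 0, (K ^ p * ((2 ^ d) ^ p * (ε / (p + ε)))) *
        (M a l w (N + 1) x ^ (p + ε) - M a l w N x ^ (p + ε)) := by
  refine fiber_le (measurableSet_cell a l 0 0) ?_ ?_ (idx a l (N + 1))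
    (fun c => measurableSet_cell a l (N + 1) c) ?_
  · exact (integrable_Mpow hl hw hwi _ hε.le (hint 0 0)).sub
      (integrable_Mpow hl hw hwi _ hε.le (hint 0 0))
  · exact ((integrable_Mpow' hl hw hwi _ (by linarith)).sub
      (integrable_Mpow' hl hw hwi _ (by linarith))).const_mul _
  · intro c
    rcases fiber_cases a l (N + 1) c with h | ⟨x₀, hx₀, hc, h⟩
    · rw [h]; simp
    rw [h]
    have hM1 : ∀ x ∈ cell a l (N + 1) c, M a l w (N + 1) x = M a l w (N + 1) x₀ := fun x hx =>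
      M_congr (by rw [hc]; exact hx)
    have hM0 : ∀ x ∈ cell a l (N + 1) c, M a l w N x = M a l w N x₀ := fun x hx =>
      M_congr (idx_succ a l N (by rw [hc]; exact hx))
    set s := M a l w N x₀ with hs
    set t := M a l w (N + 1) x₀ with ht
    have hs0 : 0 ≤ s := M_nonneg hl hw N x₀
    have hst : s ≤ t := le_max_left _ _
    have htD : t ≤ 2 ^ d * s := M_succ_le hl hw hwi N x₀
    have e1 : ∫ x in cell a l (N + 1) c, (M a l w (N + 1) x ^ ε * w x ^ p - M a l w N x ^ ε * w x ^ p)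
        = (t ^ ε - s ^ ε) * ∫ x in cell a l (N + 1) c, w x ^ p := by
      rw [← integral_const_mul]
      refine setIntegral_congr_fun (measurableSet_cell a l (N + 1) c) fun x hx => ?_
      simp only [hM1 x hx, hM0 x hx]; ring
    have e2 : ∫ x in cell a l (N + 1) c, (K ^ p * ((2 ^ d) ^ p * (ε / (p + ε)))) *
        (M a l w (N + 1) x ^ (p + ε) - M a l w N x ^ (p + ε)) =
        (K ^ p * ((2 ^ d) ^ p * (ε / (p + ε)))) * (t ^ (p + ε) - s ^ (p + ε)) * (l / 2 ^ (N + 1)) ^ d := by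
      have : ∫ x in cell a l (N + 1) c, (K ^ p * ((2 ^ d) ^ p * (ε / (p + ε)))) *
        (M a l w (N + 1) x ^ (p + ε) - M a l w N x ^ (p + ε)) =
        ∫ x in cell a l (N + 1) c, (K ^ p * ((2 ^ d) ^ p * (ε / (p + ε)))) *
          (t ^ (p + ε) - s ^ (p + ε)) :=
        setIntegral_congr_fun (measurableSet_cell a l (N + 1) c) fun x hx => by
          simp only [hM1 x hx, hM0 x hx]
      rw [this, setIntegral_const, volreal_cell hl, smul_eq_mul, mul_comm]
    rw [e1, e2]
    have hd : 0 ≤ t ^ ε - s ^ ε := sub_nonneg.2 (Real.rpow_le_rpow hs0 hst hε.le)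
    rcases hst.eq_or_lt with heq | hlt
    · rw [← heq]; simp
    have hA : t = A a l w (N + 1) x₀ := by
      rw [ht, M]
      rcases le_total (M a l w N x₀) (A a l w (N + 1) x₀) with h' | h'
      · exact max_eq_right h'
      · exfalso; rw [ht, M, max_eq_left h'] at hlt; exact lt_irrefl _ hlt
    have hR := hRH (N + 1) c
    have hA' : ((l / 2 ^ (N + 1)) ^ d)⁻¹ * ∫ y in cell a l (N + 1) c, w y = t := by
      rw [hA, A, hc]
    rw [hA'] at hR
    have hV : 0 < (l / 2 ^ (N + 1)) ^ d := by positivity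
    calc (t ^ ε - s ^ ε) * ∫ x in cell a l (N + 1) c, w x ^ p
        ≤ (t ^ ε - s ^ ε) * (K ^ p * t ^ p * (l / 2 ^ (N + 1)) ^ d) :=
          mul_le_mul_of_nonneg_left hR hd
      _ = K ^ p * (t ^ p * (t ^ ε - s ^ ε)) * (l / 2 ^ (N + 1)) ^ d := by ring
      _ ≤ K ^ p * ((2 ^ d) ^ p * (ε / (p + ε)) * (t ^ (p + ε) - s ^ (p + ε))) *
          (l / 2 ^ (N + 1)) ^ d := by
          have := elem1 hp hε (by positivity : (0:ℝ) ≤ 2 ^ d) hs0 hst htD
          gcongr
      _ = _ := by ring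

/-- one step of the telescoping, second inequality -/
lemma step2 (hl : 0 < l) (hw : ∀ x, 0 ≤ w x) (hwi : LocallyIntegrable w volume)
    {p r : ℝ} (hp : 1 < p) (hr : p ≤ r) (N : ℕ) :
    ∫ x in cell a l 0 0, (M a l w (N + 1) x ^ r - M a l w N x ^ r) ≤
      ∫ x in cell a l 0 0, (p / (p - 1)) *
        (M a l w (N + 1) x ^ (r - 1) * w x - M a l w N x ^ (r - 1) * w x) := by
  have hwQ : IntegrableOn w (cell a l 0 0) := integrableOn_cell hl hwi 0 0
  refine fiber_le (measurableSet_cell a l 0 0) ?_ ?_ (idx a l (N + 1))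
    (fun c => measurableSet_cell a l (N + 1) c) ?_
  · exact ((integrable_Mpow' hl hw hwi _ (by linarith)).sub
      (integrable_Mpow' hl hw hwi _ (by linarith)))
  · exact ((integrable_Mpow hl hw hwi _ (by linarith) hwQ).sub
      (integrable_Mpow hl hw hwi _ (by linarith) hwQ)).const_mul _
  · intro c
    rcases fiber_cases a l (N + 1) c with h | ⟨x₀, hx₀, hc, h⟩
    · rw [h]; simp
    rw [h]
    have hM1 : ∀ x ∈ cell a l (N + 1) c, M a l w (N + 1) x = M a l w (N + 1) x₀ := fun x hx =>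
      M_congr (by rw [hc]; exact hx)
    have hM0 : ∀ x ∈ cell a l (N + 1) c, M a l w N x = M a l w N x₀ := fun x hx =>
      M_congr (idx_succ a l N (by rw [hc]; exact hx))
    set s := M a l w N x₀ with hs
    set t := M a l w (N + 1) x₀ with ht
    have hs0 : 0 ≤ s := M_nonneg hl hw N x₀
    have hst : s ≤ t := le_max_left _ _
    have e1 : ∫ x in cell a l (N + 1) c, (M a l w (N + 1) x ^ r - M a l w N x ^ r)
        = (t ^ r - s ^ r) * (l / 2 ^ (N + 1)) ^ d := by
      have : ∫ x in cell a l (N + 1) c, (M a l w (N + 1) x ^ r - M a l w N x ^ r) =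
        ∫ x in cell a l (N + 1) c, (t ^ r - s ^ r) :=
        setIntegral_congr_fun (measurableSet_cell a l (N + 1) c) fun x hx => by
          simp only [hM1 x hx, hM0 x hx]
      rw [this, setIntegral_const, volreal_cell hl, smul_eq_mul, mul_comm]
    have e2 : ∫ x in cell a l (N + 1) c, (p / (p - 1)) *
        (M a l w (N + 1) x ^ (r - 1) * w x - M a l w N x ^ (r - 1) * w x) =
        (p / (p - 1)) * (t ^ (r - 1) - s ^ (r - 1)) * ∫ x in cell a l (N + 1) c, w x := by
      rw [← integral_const_mul]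
      refine setIntegral_congr_fun (measurableSet_cell a l (N + 1) c) fun x hx => ?_
      simp only [hM1 x hx, hM0 x hx]; ring
    rw [e1, e2]
    rcases hst.eq_or_lt with heq | hlt
    · rw [← heq]; simp
    have hA : t = A a l w (N + 1) x₀ := by
      rw [ht, M]
      rcases le_total (M a l w N x₀) (A a l w (N + 1) x₀) with h' | h'
      · exact max_eq_right h'
      · exfalso; rw [ht, M, max_eq_left h'] at hlt; exact lt_irrefl _ hlt
    have hV : 0 < (l / 2 ^ (N + 1)) ^ d := by positivity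
    have hA' : ∫ y in cell a l (N + 1) c, w y = t * (l / 2 ^ (N + 1)) ^ d := by
      rw [hA, A, hc]; field_simp
    rw [hA']
    have := elem2 hp hr hs0 hst
    calc (t ^ r - s ^ r) * (l / 2 ^ (N + 1)) ^ d
        ≤ (p / (p - 1) * (t * (t ^ (r - 1) - s ^ (r - 1)))) * (l / 2 ^ (N + 1)) ^ d := by gcongr
      _ = _ := by ring

/-- telescoped first inequality -/
lemma tele1 (hl : 0 < l) (hw : ∀ x, 0 ≤ w x) (hwi : LocallyIntegrable w volume)
    {p ε K : ℝ} (hp : 1 < p) (hε : 0 < ε) (hK : 0 ≤ K)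
    (hint : ∀ k c, IntegrableOn (fun x => w x ^ p) (cell a l k c))
    (hRH : ∀ k c, ∫ x in cell a l k c, w x ^ p ≤
      K ^ p * (((l / 2 ^ k) ^ d)⁻¹ * ∫ y in cell a l k c, w y) ^ p * (l / 2 ^ k) ^ d) (N : ℕ) :
    ∫ x in cell a l 0 0, M a l w N x ^ ε * w x ^ p ≤
      ((l ^ d)⁻¹ * ∫ y in cell a l 0 0, w y) ^ ε * (∫ x in cell a l 0 0, w x ^ p) +
      (K ^ p * ((2 ^ d) ^ p * (ε / (p + ε)))) * ∫ x in cell a l 0 0, M a l w N x ^ (p + ε) := by
  have hκ : 0 ≤ K ^ p * ((2 ^ d) ^ p * (ε / (p + ε))) := by positivity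
  have main : ∫ x in cell a l 0 0, M a l w N x ^ ε * w x ^ p ≤
      ((l ^ d)⁻¹ * ∫ y in cell a l 0 0, w y) ^ ε * (∫ x in cell a l 0 0, w x ^ p) +
      (K ^ p * ((2 ^ d) ^ p * (ε / (p + ε)))) * ((∫ x in cell a l 0 0, M a l w N x ^ (p + ε)) -
        ∫ x in cell a l 0 0, M a l w 0 x ^ (p + ε)) := by
    induction N with
    | zero =>
      rw [sub_self, mul_zero, add_zero, ← integral_const_mul]
      refine le_of_eq (setIntegral_congr_fun (measurableSet_cell a l 0 0) fun x hx => ?_)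
      simp only [M_zero_eq hx]
    | succ n ih =>
      have h := step1 (a := a) hl hw hwi hp hε hK hint hRH n
      rw [integral_sub (integrable_Mpow hl hw hwi _ hε.le (hint 0 0))
        (integrable_Mpow hl hw hwi _ hε.le (hint 0 0)), integral_const_mul,
        integral_sub (integrable_Mpow' hl hw hwi _ (by linarith))
        (integrable_Mpow' hl hw hwi _ (by linarith))] at h
      linarith
  refine main.trans ?_
  have h0 : 0 ≤ ∫ x in cell a l 0 0, M a l w 0 x ^ (p + ε) :=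
    setIntegral_nonneg (measurableSet_cell a l 0 0) fun x _ =>
      Real.rpow_nonneg (M_nonneg hl hw 0 x) _
  have : (K ^ p * ((2 ^ d) ^ p * (ε / (p + ε)))) * ((∫ x in cell a l 0 0, M a l w N x ^ (p + ε)) -
        ∫ x in cell a l 0 0, M a l w 0 x ^ (p + ε)) ≤
      (K ^ p * ((2 ^ d) ^ p * (ε / (p + ε)))) * (∫ x in cell a l 0 0, M a l w N x ^ (p + ε)) :=
    mul_le_mul_of_nonneg_left (by linarith) hκ
  linarith

/-- telescoped second inequality (the dyadic maximal theorem in the form needed) -/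
lemma tele2 (hl : 0 < l) (hw : ∀ x, 0 ≤ w x) (hwi : LocallyIntegrable w volume)
    {p r : ℝ} (hp : 1 < p) (hr : p ≤ r) (N : ℕ) :
    ∫ x in cell a l 0 0, M a l w N x ^ r ≤
      (p / (p - 1)) * ∫ x in cell a l 0 0, M a l w N x ^ (r - 1) * w x := by
  have hwQ : IntegrableOn w (cell a l 0 0) := integrableOn_cell hl hwi 0 0
  have hp1 : 0 < p - 1 := by linarith
  induction N with
  | zero =>
    have hV : 0 < l ^ d := by positivity
    set m := ((l ^ d)⁻¹ * ∫ y in cell a l 0 0, w y) with hm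
    have hw0 : 0 ≤ ∫ y in cell a l 0 0, w y :=
      setIntegral_nonneg (measurableSet_cell a l 0 0) fun x _ => hw x
    have hm0 : 0 ≤ m := by positivity
    have e1 : ∫ x in cell a l 0 0, M a l w 0 x ^ r = m ^ r * l ^ d := by
      have : ∫ x in cell a l 0 0, M a l w 0 x ^ r = ∫ x in cell a l 0 0, m ^ r :=
        setIntegral_congr_fun (measurableSet_cell a l 0 0) fun x hx => by
          simp only [M_zero_eq hx, hm]
      rw [this, setIntegral_const, volreal_cell hl, smul_eq_mul, mul_comm]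
      simp
    have e2 : ∫ x in cell a l 0 0, M a l w 0 x ^ (r - 1) * w x = m ^ (r - 1) * (m * l ^ d) := by
      have : ∫ x in cell a l 0 0, M a l w 0 x ^ (r - 1) * w x =
          ∫ x in cell a l 0 0, m ^ (r - 1) * w x :=
        setIntegral_congr_fun (measurableSet_cell a l 0 0) fun x hx => by
          simp only [M_zero_eq hx, hm]
      rw [this, integral_const_mul, hm]
      field_simp
    rw [e1, e2]
    have e3 : m ^ (r - 1) * (m * l ^ d) = m ^ r * l ^ d := by
      have : m ^ r = m * m ^ (r - 1) := by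
        rw [← Real.rpow_one_add' hm0 (by linarith)]; congr 1; ring
      rw [this]; ring
    rw [e3]
    refine le_mul_of_one_le_left (by positivity) ?_
    rw [le_div_iff₀ hp1]; linarith
  | succ n ih =>
    have h := step2 (a := a) hl hw hwi hp hr n
    rw [integral_sub (integrable_Mpow' hl hw hwi _ (by linarith))
        (integrable_Mpow' hl hw hwi _ (by linarith)), integral_const_mul,
      integral_sub (integrable_Mpow hl hw hwi _ (by linarith) hwQ)
        (integrable_Mpow hl hw hwi _ (by linarith) hwQ)] at h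
    linarith

/-- the bound at level `N` -/
lemma level_bound (hl : 0 < l) (hw : ∀ x, 0 ≤ w x) (hwi : LocallyIntegrable w volume)
    {p ε K : ℝ} (hp : 1 < p) (hε : 0 < ε) (hK : 0 ≤ K)
    (hint : ∀ k c, IntegrableOn (fun x => w x ^ p) (cell a l k c))
    (hRH : ∀ k c, ∫ x in cell a l k c, w x ^ p ≤
      K ^ p * (((l / 2 ^ k) ^ d)⁻¹ * ∫ y in cell a l k c, w y) ^ p * (l / 2 ^ k) ^ d)
    (hεK : ε * (K ^ p * (2 ^ d) ^ p * (2 * (p / (p - 1))) ^ p) ≤ p / 2) (N : ℕ) :
    ∫ x in cell a l 0 0, M a l w N x ^ ε * w x ^ p ≤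
      2 * (((l ^ d)⁻¹ * ∫ y in cell a l 0 0, w y) ^ ε * ∫ x in cell a l 0 0, w x ^ p) := by
  have hp1 : 0 < p - 1 := by linarith
  have hwQ : IntegrableOn w (cell a l 0 0) := integrableOn_cell hl hwi 0 0
  set Φ := ∫ x in cell a l 0 0, M a l w N x ^ ε * w x ^ p with hΦ
  set Ψ := ∫ x in cell a l 0 0, M a l w N x ^ (p + ε) with hΨ
  have hΦ0 : 0 ≤ Φ := setIntegral_nonneg (measurableSet_cell a l 0 0) fun x _ =>
    mul_nonneg (Real.rpow_nonneg (M_nonneg hl hw N x) _) (Real.rpow_nonneg (hw x) _)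
  have hΨ0 : 0 ≤ Ψ := setIntegral_nonneg (measurableSet_cell a l 0 0) fun x _ =>
    Real.rpow_nonneg (M_nonneg hl hw N x) _
  set q := p / (p - 1) with hq
  have hq0 : 0 < q := by positivity
  -- Doob type inequality
  have h2 := tele2 (a := a) hl hw hwi hp (show p ≤ p + ε by linarith) N
  have h3 : ∫ x in cell a l 0 0, M a l w N x ^ (p + ε - 1) * w x ≤
      ∫ x in cell a l 0 0, ((1 / (2 * q)) * M a l w N x ^ (p + ε) +
        (1 / (1 / (2 * q))) ^ (p - 1) * (M a l w N x ^ ε * w x ^ p)) := by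
    refine setIntegral_mono_on (integrable_Mpow hl hw hwi _ (by linarith) hwQ) ?_
      (measurableSet_cell a l 0 0) fun x _ => ?_
    · exact ((integrable_Mpow' hl hw hwi _ (by linarith)).const_mul _).add
        ((integrable_Mpow hl hw hwi _ hε.le (hint 0 0)).const_mul _)
    · rw [mul_comm (M a l w N x ^ (p + ε - 1))]
      exact elem3 hp hε (by positivity) (hw x) (M_nonneg hl hw N x)
  rw [integral_add ((integrable_Mpow' hl hw hwi _ (by linarith)).const_mul _)
    ((integrable_Mpow hl hw hwi _ hε.le (hint 0 0)).const_mul _), integral_const_mul,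
    integral_const_mul] at h3
  have e4 : (1 / (1 / (2 * q))) = 2 * q := by field_simp
  rw [e4] at h3
  have h5 : Ψ ≤ (2 * q) ^ p * Φ := by
    have h6 : Ψ ≤ q * ((1 / (2 * q)) * Ψ + (2 * q) ^ (p - 1) * Φ) :=
      h2.trans (mul_le_mul_of_nonneg_left h3 hq0.le)
    have e7 : q * ((1 / (2 * q)) * Ψ + (2 * q) ^ (p - 1) * Φ) =
        Ψ / 2 + (1 / 2) * ((2 * q) * (2 * q) ^ (p - 1)) * Φ := by
      field_simp
    have e8 : (2 * q) * (2 * q) ^ (p - 1) = (2 * q) ^ p := by
      rw [← Real.rpow_one_add' (by positivity) (by linarith)]; congr 1; ring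
    rw [e7, e8] at h6
    linarith
  have h1 := tele1 (a := a) hl hw hwi hp hε hK hint hRH N
  have hκ : (K ^ p * ((2 ^ d) ^ p * (ε / (p + ε)))) * Ψ ≤ Φ / 2 := by
    calc (K ^ p * ((2 ^ d) ^ p * (ε / (p + ε)))) * Ψ
        ≤ (K ^ p * ((2 ^ d) ^ p * (ε / (p + ε)))) * ((2 * q) ^ p * Φ) := by gcongr
      _ = ε * (K ^ p * (2 ^ d) ^ p * (2 * q) ^ p) * (1 / (p + ε)) * Φ := by ring
      _ ≤ (p / 2) * (1 / (p + ε)) * Φ := by gcongr
      _ ≤ (p / 2) * (1 / p) * Φ := by
          have : 1 / (p + ε) ≤ 1 / p := one_div_le_one_div_of_le (by linarith) (by linarith)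
          gcongr
      _ = Φ / 2 := by field_simp
  linarith

/-- Lebesgue differentiation along the dyadic cells -/
lemma tendsto_A (hl : 0 < l) (hwi : LocallyIntegrable w volume) :
    ∀ᵐ x, Tendsto (fun k => A a l w k x) atTop (𝓝 (w x)) := by
  have h := IsUnifLocDoublingMeasure.ae_tendsto_average (μ := (volume : Measure (Fin d → ℝ))) hwi 1
  filter_upwards [h] with x hx
  have hδ : Tendsto (fun k : ℕ => l / 2 ^ k / 2) atTop (𝓝[>] 0) := by
    rw [tendsto_nhdsWithin_iff]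
    refine ⟨?_, Eventually.of_forall fun k => by simp only [mem_Ioi]; positivity⟩
    have h1 : Tendsto (fun k : ℕ => (l / 2) * (1 / 2 : ℝ) ^ k) atTop (𝓝 ((l / 2) * 0)) :=
      (tendsto_pow_atTop_nhds_zero_of_lt_one (by norm_num) (by norm_num)).const_mul _
    rw [mul_zero] at h1
    refine h1.congr fun k => ?_
    rw [one_div, inv_pow]; field_simp
  have h1 := hx (fun k : ℕ => (fun i => corner a l k (idx a l k x) i + l / 2 ^ k / 2 : Fin d → ℝ))
    (fun k : ℕ => l / 2 ^ k / 2) hδ (Eventually.of_forall fun k => ?_)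
  · refine h1.congr fun k => ?_
    have hball : Metric.closedBall (fun i => corner a l k (idx a l k x) i + l / 2 ^ k / 2 : Fin d → ℝ)
        (l / 2 ^ k / 2) = Icc (corner a l k (idx a l k x))
          (fun i => corner a l k (idx a l k x) i + l / 2 ^ k) := by
      rw [closedBall_pi _ (by positivity), ← Set.pi_univ_Icc]
      refine Set.pi_congr rfl fun i _ => ?_
      rw [Real.closedBall_eq_Icc]
      congr 1 <;> ring
    rw [hball, ← setAverage_congr (cell_ae hl k (idx a l k x)), setAverage_eq, volreal_cell hl, A,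
      smul_eq_mul]
  · rw [one_mul, Metric.mem_closedBall, dist_pi_le_iff (by positivity)]
    intro i
    have hm : x ∈ cell a l k (idx a l k x) := rfl
    have := (mem_cell hl).1 hm i
    rw [Real.dist_eq, abs_le]
    constructor <;> linarith [this.1, this.2]

/-- `Q` is a closed axis-parallel cube of positive side length. -/
def IsCube (Q : Set (Fin d → ℝ)) : Prop :=
  ∃ (a : Fin d → ℝ) (l : ℝ), 0 < l ∧ Q = Icc a (fun i => a i + l)

/-- A weight: a locally integrable function which is positive (almost everywhere). -/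
def IsWeight (w : (Fin d → ℝ) → ℝ) : Prop :=
  LocallyIntegrable w volume ∧ ∀ᵐ x, 0 < w x

/-- The average over `Q` of the nonnegative function `f`, possibly infinite. -/
noncomputable def avg (Q : Set (Fin d → ℝ)) (f : (Fin d → ℝ) → ℝ) : ENNReal :=
  (volume Q)⁻¹ * ∫⁻ x in Q, ENNReal.ofReal (f x)

/-- The reverse Hölder constant `[w]_{RH_p}`, an element of `[0, ∞]`. -/
noncomputable def RH (p : ℝ) (w : (Fin d → ℝ) → ℝ) : ENNReal :=
  ⨆ (Q : Set (Fin d → ℝ)) (_ : IsCube Q), avg Q (fun x => w x ^ p) ^ (1 / p) / avg Q w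

lemma vol_Icc (b : Fin d → ℝ) {r : ℝ} (hr : 0 < r) :
    volume (Icc b (fun i => b i + r)) = ENNReal.ofReal (r ^ d) := by
  rw [Real.volume_Icc_pi]
  simp only [add_sub_cancel_left, Finset.prod_const, Finset.card_univ, Fintype.card_fin]
  rw [ENNReal.ofReal_pow hr.le]

lemma avg_eq (b : Fin d → ℝ) {r : ℝ} (hr : 0 < r) {f : (Fin d → ℝ) → ℝ}
    (hf : IntegrableOn f (Icc b (fun i => b i + r))) (hf0 : ∀ x, 0 ≤ f x) :
    avg (Icc b (fun i => b i + r)) f =
      ENNReal.ofReal ((r ^ d)⁻¹ * ∫ x in Icc b (fun i => b i + r), f x) := by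
  rw [avg, vol_Icc b hr, ← ofReal_integral_eq_lintegral_ofReal hf (ae_of_all _ hf0),
    ENNReal.ofReal_mul (by positivity), ENNReal.ofReal_inv_of_pos (by positivity)]

lemma int_pos (hwp : ∀ x, 0 < w x) (hwi : LocallyIntegrable w volume) (b : Fin d → ℝ) {r : ℝ}
    (hr : 0 < r) : 0 < ∫ x in Icc b (fun i => b i + r), w x := by
  rw [setIntegral_pos_iff_support_of_nonneg_ae (ae_of_all _ fun x => (hwp x).le)
    (hwi.integrableOn_isCompact isCompact_Icc)]
  have : Function.support w = univ := by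
    ext x; simp [(hwp x).ne']
  rw [this, univ_inter, vol_Icc b hr]
  exact ENNReal.ofReal_pos.2 (by positivity)

/-- the reverse Hölder inequality on a cube, in real form -/
lemma RH_cube {p : ℝ} (hp : 1 < p) (hwp : ∀ x, 0 < w x) (hwi : LocallyIntegrable w volume)
    (hR : RH p w < ⊤) (b : Fin d → ℝ) {r : ℝ} (hr : 0 < r) :
    IntegrableOn (fun x => w x ^ p) (Icc b (fun i => b i + r)) ∧
    ∫ x in Icc b (fun i => b i + r), w x ^ p ≤
      (RH p w).toReal ^ p * ((r ^ d)⁻¹ * ∫ x in Icc b (fun i => b i + r), w x) ^ p * r ^ d := by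
  have hp0 : 0 < p := by linarith
  have hV : 0 < r ^ d := by positivity
  set Q := Icc b (fun i => b i + r) with hQ
  have hcube : IsCube Q := ⟨b, r, hr, rfl⟩
  have hwQ : IntegrableOn w Q := hwi.integrableOn_isCompact isCompact_Icc
  set m := (r ^ d)⁻¹ * ∫ x in Q, w x with hm
  have hm0 : 0 < m := mul_pos (by positivity) (int_pos hwp hwi b hr)
  have havg : avg Q w = ENNReal.ofReal m := avg_eq b hr hwQ fun x => (hwp x).le
  have h1 : avg Q (fun x => w x ^ p) ^ (1 / p) / avg Q w ≤ RH p w :=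
    le_iSup₂ (f := fun (Q : Set (Fin d → ℝ)) (_ : IsCube Q) =>
      avg Q (fun x => w x ^ p) ^ (1 / p) / avg Q w) Q hcube
  have hRK : RH p w = ENNReal.ofReal (RH p w).toReal := (ENNReal.ofReal_toReal hR.ne).symm
  set K := (RH p w).toReal with hK
  have hK0 : 0 ≤ K := ENNReal.toReal_nonneg
  rw [havg, hRK, ENNReal.div_le_iff (by simpa using hm0) ENNReal.ofReal_ne_top,
    ← ENNReal.ofReal_mul hK0] at h1
  have h2 : avg Q (fun x => w x ^ p) ≤ ENNReal.ofReal ((K * m) ^ p) := by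
    have := ENNReal.rpow_le_rpow h1 hp0.le
    rw [← ENNReal.rpow_mul, one_div, inv_mul_cancel₀ hp0.ne', ENNReal.rpow_one,
      ENNReal.ofReal_rpow_of_nonneg (by positivity) hp0.le] at this
    exact this
  have hmeas : AEStronglyMeasurable (fun x => w x ^ p) (volume.restrict Q) :=
    (hwQ.aestronglyMeasurable.aemeasurable.pow_const p).aestronglyMeasurable
  have h3 : ∫⁻ x in Q, ENNReal.ofReal (w x ^ p) ≤ ENNReal.ofReal ((K * m) ^ p * r ^ d) := by
    rw [avg, vol_Icc b hr] at h2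
    have h4 : ENNReal.ofReal (r ^ d) * ((ENNReal.ofReal (r ^ d))⁻¹ *
        ∫⁻ x in Q, ENNReal.ofReal (w x ^ p)) ≤
        ENNReal.ofReal (r ^ d) * ENNReal.ofReal ((K * m) ^ p) := by gcongr
    rw [← mul_assoc, ENNReal.mul_inv_cancel (by simpa using hV) ENNReal.ofReal_ne_top, one_mul,
      ← ENNReal.ofReal_mul hV.le] at h4
    rwa [mul_comm ((K * m) ^ p)]
  have hint : IntegrableOn (fun x => w x ^ p) Q := by
    refine ⟨hmeas, ?_⟩
    rw [hasFiniteIntegral_iff_ofReal (ae_of_all _ fun x => (Real.rpow_nonneg (hwp x).le p))]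
    exact h3.trans_lt ENNReal.ofReal_lt_top
  refine ⟨hint, ?_⟩
  rw [← ofReal_integral_eq_lintegral_ofReal hint
    (ae_of_all _ fun x => (Real.rpow_nonneg (hwp x).le p)),
    ENNReal.ofReal_le_ofReal_iff (by positivity), Real.mul_rpow hK0 hm0.le] at h3
  exact h3

/-- `[w]_{RH_p} ≥ 1` -/
lemma one_le_RH {p : ℝ} (hp : 1 < p) (hwp : ∀ x, 0 < w x) (hwi : LocallyIntegrable w volume)
    (hR : RH p w < ⊤) : 1 ≤ (RH p w).toReal := by
  have hp0 : 0 < p := by linarith
  obtain ⟨hint, hle⟩ := RH_cube hp hwp hwi hR (0 : Fin d → ℝ) one_pos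
  set Q := Icc (0 : Fin d → ℝ) (fun i => (0 : Fin d → ℝ) i + 1) with hQ
  have hwQ : IntegrableOn w Q := hwi.integrableOn_isCompact isCompact_Icc
  have hvol : volume Q = ENNReal.ofReal (1 ^ d) := vol_Icc _ one_pos
  have hvr : volume.real Q = 1 := by rw [Measure.real, hvol]; simp
  have hm0 := int_pos hwp hwi (0 : Fin d → ℝ) one_pos
  have hj := (convexOn_rpow hp.le).map_set_average_le (μ := volume) (t := Q) (f := w)
    (Real.continuous_rpow_const hp0.le).continuousOn isClosed_Ici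
    (by rw [hvol]; simp) (by rw [hvol]; exact ENNReal.ofReal_ne_top)
    (ae_of_all _ fun x => (hwp x).le) hwQ hint
  rw [setAverage_eq, hvr, inv_one, one_smul] at hj
  have e : ⨍ x in Q, w x ^ p = ∫ x in Q, w x ^ p := by
    rw [setAverage_eq, hvr, inv_one, one_smul]
  rw [e] at hj
  have h1 := hj.trans hle
  simp only [one_pow, inv_one, one_mul, mul_one] at h1
  set I := ∫ x in Q, w x with hI
  have hIp : 0 < I ^ p := Real.rpow_pos_of_pos hm0 p
  have h2 : 1 ≤ (RH p w).toReal ^ p := by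
    by_contra hlt
    push Not at hlt
    have : (RH p w).toReal ^ p * I ^ p < 1 * I ^ p := mul_lt_mul_of_pos_right hlt hIp
    linarith
  by_contra hlt
  push Not at hlt
  have : (RH p w).toReal ^ p < 1 := Real.rpow_lt_one ENNReal.toReal_nonneg hlt hp0
  linarith

/-- the main estimate in real form, for everywhere positive weights -/
lemma main_pos {p ε : ℝ} (hp : 1 < p) (hε : 0 < ε) (hwp : ∀ x, 0 < w x)
    (hwi : LocallyIntegrable w volume) (hR : RH p w < ⊤)
    (hεK : ε ≤ p / 2 * ((p - 1) / (2 ^ (d + 1) * p)) ^ p * (RH p w).toReal ^ (-p))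
    (a : Fin d → ℝ) {l : ℝ} (hl : 0 < l) :
    avg (Icc a (fun i => a i + l)) (fun x => w x ^ (p + ε)) ≤
      2 * avg (Icc a (fun i => a i + l)) w ^ ε * avg (Icc a (fun i => a i + l)) (fun x => w x ^ p) := by
  have hp0 : 0 < p := by linarith
  have hp1 : 0 < p - 1 := by linarith
  have hw : ∀ x, 0 ≤ w x := fun x => (hwp x).le
  have hK1 := one_le_RH hp hwp hwi hR
  set K := (RH p w).toReal with hK
  have hK0 : 0 < K := by linarith
  have hint : ∀ k c, IntegrableOn (fun x => w x ^ p) (cell a l k c) := by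
    intro k c
    rw [integrableOn_congr_set_ae (cell_ae hl k c)]
    exact (RH_cube hp hwp hwi hR (corner a l k c) (by positivity)).1
  have hRH : ∀ k c, ∫ x in cell a l k c, w x ^ p ≤
      K ^ p * (((l / 2 ^ k) ^ d)⁻¹ * ∫ y in cell a l k c, w y) ^ p * (l / 2 ^ k) ^ d := by
    intro k c
    rw [setIntegral_congr_set (cell_ae hl k c), setIntegral_congr_set (cell_ae hl k c)]
    exact (RH_cube hp hwp hwi hR (corner a l k c) (by positivity)).2
  have hεK' : ε * (K ^ p * (2 ^ d) ^ p * (2 * (p / (p - 1))) ^ p) ≤ p / 2 := by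
    have hX : 0 ≤ K ^ p * (2 ^ d) ^ p * (2 * (p / (p - 1))) ^ p := by positivity
    refine (mul_le_mul_of_nonneg_right hεK hX).trans (le_of_eq ?_)
    have e1 : ((2:ℝ) ^ d) ^ p * (2 * (p / (p - 1))) ^ p = (2 ^ (d + 1) * p / (p - 1)) ^ p := by
      rw [← Real.mul_rpow (by positivity) (by positivity)]
      congr 1; rw [pow_succ]; ring
    have e2 : ((p - 1) / (2 ^ (d + 1) * p)) ^ p * (2 ^ (d + 1) * p / (p - 1)) ^ p = 1 := by
      rw [← Real.mul_rpow (by positivity) (by positivity)]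
      have : (p - 1) / (2 ^ (d + 1) * p) * (2 ^ (d + 1) * p / (p - 1)) = 1 := by
        field_simp
      rw [this, Real.one_rpow]
    have e3 : K ^ (-p) * K ^ p = 1 := by
      rw [← Real.rpow_add hK0]; simp
    calc p / 2 * ((p - 1) / (2 ^ (d + 1) * p)) ^ p * K ^ (-p) *
          (K ^ p * (2 ^ d) ^ p * (2 * (p / (p - 1))) ^ p)
        = p / 2 * (K ^ (-p) * K ^ p) * (((p - 1) / (2 ^ (d + 1) * p)) ^ p *
          ((2 ^ d) ^ p * (2 * (p / (p - 1))) ^ p)) := by ring
      _ = p / 2 := by rw [e3, e1, e2]; ring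
  have hlev := level_bound (a := a) hl hw hwi hp hε hK0.le hint hRH hεK'
  set m := (l ^ d)⁻¹ * ∫ y in cell a l 0 0, w y with hm
  have hV : 0 < l ^ d := by positivity
  have hcell : cell a l 0 0 =ᵐ[volume] Icc a (fun i => a i + l) := by
    have := cell_ae (a := a) hl 0 0
    have e : corner a l 0 0 = a := by funext i; simp [corner]
    simpa [e] using this
  have hm0 : 0 ≤ m := by
    have : 0 ≤ ∫ y in cell a l 0 0, w y :=
      setIntegral_nonneg (measurableSet_cell a l 0 0) fun x _ => hw x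
    positivity
  -- Fatou
  have hFatou : ∫⁻ x in cell a l 0 0, ENNReal.ofReal (w x ^ (p + ε)) ≤
      ENNReal.ofReal (2 * (m ^ ε * ∫ x in cell a l 0 0, w x ^ p)) := by
    have h1 : ∫⁻ x in cell a l 0 0, ENNReal.ofReal (w x ^ (p + ε)) ≤
        ∫⁻ x in cell a l 0 0, liminf (fun N => ENNReal.ofReal (A a l w N x ^ ε * w x ^ p)) atTop := by
      refine lintegral_mono_ae (ae_restrict_of_ae ?_)
      filter_upwards [tendsto_A (a := a) hl hwi] with x hx
      have h2 : Tendsto (fun N => ENNReal.ofReal (A a l w N x ^ ε * w x ^ p)) atTop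
          (𝓝 (ENNReal.ofReal (w x ^ ε * w x ^ p))) :=
        ENNReal.tendsto_ofReal ((hx.rpow_const (Or.inr hε.le)).mul_const _)
      rw [h2.liminf_eq, ← Real.rpow_add (hwp x), add_comm ε p]
    refine h1.trans ((lintegral_liminf_le' fun N => ?_).trans ?_)
    · exact ((((measurable_A a l w N).pow_const ε).aemeasurable).mul
        (((integrableOn_cell hl hwi 0 0).aestronglyMeasurable.aemeasurable.pow_const p))).ennreal_ofReal
    · refine liminf_le_of_le (by isBoundedDefault) fun b hb => ?_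
      obtain ⟨N, hN⟩ := hb.exists
      refine hN.trans ?_
      calc ∫⁻ x in cell a l 0 0, ENNReal.ofReal (A a l w N x ^ ε * w x ^ p)
          ≤ ∫⁻ x in cell a l 0 0, ENNReal.ofReal (M a l w N x ^ ε * w x ^ p) := by
            refine lintegral_mono fun x => ENNReal.ofReal_le_ofReal ?_
            exact mul_le_mul_of_nonneg_right
              (Real.rpow_le_rpow (A_nonneg hl hw N x) (A_le_M N x) hε.le)
              (Real.rpow_nonneg (hw x) p)
        _ = ENNReal.ofReal (∫ x in cell a l 0 0, M a l w N x ^ ε * w x ^ p) :=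
            (ofReal_integral_eq_lintegral_ofReal (integrable_Mpow hl hw hwi N hε.le (hint 0 0))
              (ae_of_all _ fun x => mul_nonneg (Real.rpow_nonneg (M_nonneg hl hw N x) _)
                (Real.rpow_nonneg (hw x) _))).symm
        _ ≤ _ := ENNReal.ofReal_le_ofReal (hlev N)
  have hwQ : IntegrableOn w (Icc a (fun i => a i + l)) := hwi.integrableOn_isCompact isCompact_Icc
  have hwpQ : IntegrableOn (fun x => w x ^ p) (Icc a (fun i => a i + l)) :=
    (RH_cube hp hwp hwi hR a hl).1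
  rw [avg_eq a hl hwQ hw, avg_eq a hl hwpQ fun x => Real.rpow_nonneg (hw x) p, avg, vol_Icc a hl,
    ← setLIntegral_congr hcell, ← setIntegral_congr_set hcell, ← setIntegral_congr_set hcell, ← hm,
    ENNReal.ofReal_rpow_of_nonneg hm0 hε.le]
  calc (ENNReal.ofReal (l ^ d))⁻¹ * ∫⁻ x in cell a l 0 0, ENNReal.ofReal (w x ^ (p + ε))
      ≤ (ENNReal.ofReal (l ^ d))⁻¹ * ENNReal.ofReal (2 * (m ^ ε * ∫ x in cell a l 0 0, w x ^ p)) := by
        gcongr
    _ = 2 * ENNReal.ofReal (m ^ ε) *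
        ENNReal.ofReal ((l ^ d)⁻¹ * ∫ x in cell a l 0 0, w x ^ p) := by
        rw [← ENNReal.ofReal_inv_of_pos hV, ← ENNReal.ofReal_mul (by positivity),
          show (2 : ENNReal) = ENNReal.ofReal 2 by simp, ← ENNReal.ofReal_mul (by norm_num),
          ← ENNReal.ofReal_mul (by positivity)]
        congr 1; ring

lemma avg_congr {Q : Set (Fin d → ℝ)} {f g : (Fin d → ℝ) → ℝ} (h : f =ᵐ[volume] g) :
    avg Q f = avg Q g := by
  unfold avg
  congr 1
  refine lintegral_congr_ae (ae_restrict_of_ae ?_)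
  filter_upwards [h] with x hx
  rw [hx]

/-- the main estimate for all weights -/
lemma main_weight {p ε : ℝ} (hp : 1 < p) (hε : 0 < ε) (hw : IsWeight w) (hR : RH p w < ⊤)
    (hεK : ε ≤ p / 2 * ((p - 1) / (2 ^ (d + 1) * p)) ^ p * (RH p w).toReal ^ (-p))
    {Q : Set (Fin d → ℝ)} (hQ : IsCube Q) :
    avg Q (fun x => w x ^ (p + ε)) ≤ 2 * avg Q w ^ ε * avg Q (fun x => w x ^ p) ∧
    avg Q (fun x => w x ^ (p + ε)) ≤ 2 * RH p w ^ (p + ε) * avg Q w ^ (p + ε) := by
  classical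
  have hp0 : 0 < p := by linarith
  obtain ⟨a, l, hl, rfl⟩ := hQ
  -- an everywhere positive representative
  set v : (Fin d → ℝ) → ℝ := fun x => if 0 < w x then w x else 1 with hv
  have hvw : w =ᵐ[volume] v := by
    filter_upwards [hw.2] with x hx
    simp [hv, hx]
  have hvp : ∀ x, 0 < v x := by
    intro x
    simp only [hv]
    split_ifs with h
    · exact h
    · exact one_pos
  have hvi : LocallyIntegrable v volume := by
    intro x
    obtain ⟨s, hs, hs'⟩ := hw.1 x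
    exact ⟨s, hs, hs'.congr (ae_restrict_of_ae hvw)⟩
  have hpow : ∀ q : ℝ, (fun x => w x ^ q) =ᵐ[volume] fun x => v x ^ q := by
    intro q
    filter_upwards [hvw] with x hx
    rw [hx]
  have hRv : RH p w = RH p v := by
    unfold RH
    simp only [avg_congr (hpow p), avg_congr hvw]
  rw [avg_congr (hpow (p + ε)), avg_congr (hpow p), avg_congr hvw, hRv]
  rw [hRv] at hR hεK
  have h1 := main_pos hp hε hvp hvi hR hεK a hl
  refine ⟨h1, h1.trans ?_⟩
  set Q := Icc a (fun i => a i + l) with hQ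
  have h2 : avg Q (fun x => v x ^ p) ^ (1 / p) / avg Q v ≤ RH p v :=
    le_iSup₂ (f := fun (Q : Set (Fin d → ℝ)) (_ : IsCube Q) =>
      avg Q (fun x => v x ^ p) ^ (1 / p) / avg Q v) Q ⟨a, l, hl, rfl⟩
  have hvQ : IntegrableOn v Q := hvi.integrableOn_isCompact isCompact_Icc
  have havg : avg Q v = ENNReal.ofReal ((l ^ d)⁻¹ * ∫ x in Q, v x) :=
    avg_eq a hl hvQ fun x => (hvp x).le
  have hm0 : 0 < (l ^ d)⁻¹ * ∫ x in Q, v x := mul_pos (by positivity) (int_pos hvp hvi a hl)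
  have hne : avg Q v ≠ 0 := by rw [havg]; simpa using hm0
  have hnt : avg Q v ≠ ⊤ := by rw [havg]; exact ENNReal.ofReal_ne_top
  rw [ENNReal.div_le_iff hne hnt] at h2
  have h3 : avg Q (fun x => v x ^ p) ≤ RH p v ^ p * avg Q v ^ p := by
    have := ENNReal.rpow_le_rpow h2 hp0.le
    rwa [← ENNReal.rpow_mul, one_div, inv_mul_cancel₀ hp0.ne', ENNReal.rpow_one,
      ENNReal.mul_rpow_of_nonneg _ _ hp0.le] at this
  have hone : 1 ≤ RH p v := by
    have := one_le_RH hp hvp hvi hR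
    rw [← ENNReal.ofReal_toReal hR.ne]
    simpa using ENNReal.ofReal_le_ofReal this
  calc 2 * avg Q v ^ ε * avg Q (fun x => v x ^ p)
      ≤ 2 * avg Q v ^ ε * (RH p v ^ p * avg Q v ^ p) := by gcongr
    _ ≤ 2 * avg Q v ^ ε * (RH p v ^ (p + ε) * avg Q v ^ p) := by
        have : RH p v ^ p ≤ RH p v ^ (p + ε) :=
          ENNReal.rpow_le_rpow_of_exponent_le hone (by linarith)
        gcongr
    _ = 2 * RH p v ^ (p + ε) * avg Q v ^ (p + ε) := by
        rw [ENNReal.rpow_add p ε hne hnt]; ring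

/-- **Explicit Gehring exponent.** -/
theorem result (d : ℕ) (_hd : 1 ≤ d) (p : ℝ) (hp : 1 < p) :
    ∃ c : ℝ, 0 < c ∧ c = p / 2 * ((p - 1) / (2 ^ (d + 1) * p)) ^ p ∧
      ∀ w : (Fin d → ℝ) → ℝ, IsWeight w → RH p w < ⊤ →
        ∀ Q : Set (Fin d → ℝ), IsCube Q →
          ∀ ε : ℝ, 0 < ε → ε ≤ c * (RH p w).toReal ^ (-p) →
            avg Q (fun x => w x ^ (p + ε)) ≤ 2 * RH p w ^ (p + ε) * avg Q w ^ (p + ε) ∧
            avg Q (fun x => w x ^ (p + ε)) ≤ 2 * avg Q w ^ ε * avg Q (fun x => w x ^ p) := by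
  have hp1 : 0 < p - 1 := by linarith
  refine ⟨_, by positivity, rfl, fun w hw hR Q hQ ε hε hεc => ?_⟩
  exact (main_weight hp hε hw hR hεc hQ).symm

end Pool.Agent.Results.MP_edcda5_an.ExplicitGehringExponent
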